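import Pool.Agent.T2H03.UB.Stab

/-!
# The critical probability and the occupation time at criticality
-/

open MeasureTheory ProbabilityTheory Set Filter
open scoped ENNReal unitInterval Topology

namespace UBoot

variable {U : Finset (Finset Site)}

lemma real_empty_on (p : I) (F : Finset Site) :
    (law p).real {A | ∀ x ∈ F, x ∉ A} = (1 - (p : ℝ)) ^ F.card := by
  classical
  have h : {A : Set Site | ∀ x ∈ F, x ∉ A} = res F ⁻¹' {fun _ => False} := by
    ext A
    simp only [Set.mem_ofPred_eq, Set.mem_preimage, Set.mem_singleton_iff, funext_iff, res,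
      eq_iff_iff, iff_false, Subtype.forall]
  rw [h, real_res_singleton]
  simp

lemma theta_zero (p : I) : theta U p 0 = 1 - (p : ℝ) := by
  have := real_empty_on p {0}
  simpa [theta, late, stage] using this

lemma law_one_univ : law 1 {A | A = (Set.univ : Set Site)}ᶜ = 0 := by
  have h : {A | A = (Set.univ : Set Site)}ᶜ =
      ⋃ x : Site, {A : Set Site | ∀ y ∈ ({x} : Finset Site), y ∉ A} := by
    ext A
    simp [Set.eq_univ_iff_forall]
  rw [h]
  refine measure_iUnion_null fun x => ?_
  have := real_empty_on 1 {x}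
  rw [← measureReal_eq_zero_iff, this]
  simp

lemma stage_univ (t : ℕ) : stage U Set.univ t = Set.univ :=
  Set.eq_univ_of_univ_subset (stage_mono_time (U := U) Set.univ (Nat.zero_le t))

lemma closure_univ' : closure U Set.univ = Set.univ :=
  Set.eq_univ_of_univ_subset (fun x hx => Set.mem_iUnion.2 ⟨0, hx⟩)

lemma law_one_perc : law 1 {A | closure U A = Set.univ} = 1 := by
  rw [← prob_compl_eq_zero_iff (measurableSet_perc U)]
  refine measure_mono_null ?_ law_one_univ
  intro A hA h
  rw [Set.mem_ofPred_eq] at h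
  subst h
  exact hA closure_univ'

/-- the set of the percolating parameters -/
def percSet (U : Finset (Finset Site)) : Set ℝ :=
  {p : ℝ | ∃ h : p ∈ I, law ⟨p, h⟩ {A | closure U A = Set.univ} = 1}

lemma one_mem_percSet : (1 : ℝ) ∈ percSet U := ⟨by simp, law_one_perc⟩

lemma bddBelow_percSet : BddBelow (percSet U) := ⟨0, fun _ h => h.1.1⟩

lemma pc_nonneg (U : Finset (Finset Site)) : 0 ≤ pc U :=
  le_csInf ⟨1, one_mem_percSet⟩ fun _ h => h.1.1

lemma pc_le_one (U : Finset (Finset Site)) : pc U ≤ 1 := csInf_le bddBelow_percSet one_mem_percSet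

lemma pc_le {p : I} (h : law p {A | closure U A = Set.univ} = 1) : pc U ≤ p :=
  csInf_le bddBelow_percSet ⟨p.2, h⟩

lemma stage_empty (hne : ∀ X ∈ U, X.Nonempty) (t : ℕ) : stage U ∅ t = ∅ := by
  induction t with
  | zero => rfl
  | succ t ih =>
    rw [stage, ih]
    ext x
    simp only [step, Set.mem_union, Set.mem_empty_iff_false, false_or, Set.mem_ofPred_eq, iff_false,
      not_exists, not_and, not_forall]
    intro X hX
    obtain ⟨y, hy⟩ := hne X hX
    exact ⟨y, hy, not_false⟩

lemma law_zero_empty : law 0 {A | A = (∅ : Set Site)}ᶜ = 0 := by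
  have h : {A | A = (∅ : Set Site)}ᶜ =
      ⋃ x : Site, {A : Set Site | ∀ y ∈ ({x} : Finset Site), y ∉ A}ᶜ := by
    ext A
    simp [Set.eq_empty_iff_forall_notMem]
  rw [h]
  refine measure_iUnion_null fun x => ?_
  have hm : MeasurableSet {A : Set Site | ∀ y ∈ ({x} : Finset Site), y ∉ A} := by
    have := (measurableSet_late ∅ x 0)
    simpa [late, stage] using this
  rw [prob_compl_eq_zero_iff hm]
  have := real_empty_on 0 {x}
  simp only [Set.Icc.coe_zero, sub_zero, one_pow] at this
  rw [Measure.real, ENNReal.toReal_eq_one_iff] at this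
  exact this

lemma theta_at_zero (hne : ∀ X ∈ U, X.Nonempty) (n : ℕ) : theta U 0 n = 1 := by
  have h1 : law 0 (late U 0 n)ᶜ = 0 := by
    refine measure_mono_null ?_ law_zero_empty
    intro A hA h
    rw [Set.mem_ofPred_eq] at h
    subst h
    apply hA
    intro h0
    rw [stage_empty hne] at h0
    exact h0
  rw [prob_compl_eq_zero_iff (measurableSet_late U 0 n)] at h1
  rw [theta, Measure.real, h1, ENNReal.toReal_one]

/-- families with a rule in an open half plane -/
lemma main_unstable (hne : ∀ X ∈ U, X.Nonempty) {u : ℝ × ℝ} (hu : ¬ Stable U u) :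
    pc U < 1 ∧ ∃ c : ℝ, 0 < c ∧ ∀ p : I, (p : ℝ) = pc U → ∀ n : ℕ, 1 ≤ n →
      c / n ≤ theta U p n := by
  obtain ⟨X, hX, hXu⟩ := exists_rule_of_not_stable hu
  obtain ⟨a, b, hab, h1⟩ := exists_integral (hne X hX) hXu
  obtain ⟨D, hD, hcrit⟩ := finite_size hX hab h1
  have hD0 : 0 < D := by linarith
  constructor
  · have hmem : 1 - 1 / (2 * D) ∈ I := by
      constructor
      · have : 1 / (2 * D) ≤ 1 := by rw [div_le_one (by positivity)]; linarith
        linarith
      · have : 0 < 1 / (2 * D) := by positivity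
        linarith
    have hperc := hcrit ⟨1 - 1 / (2 * D), hmem⟩ 1 le_rfl (by
      have h := theta_anti U ⟨1 - 1 / (2 * D), hmem⟩ (Nat.zero_le 1)
      rw [theta_zero] at h
      simp only [sub_sub_cancel] at h
      calc D * ((1 : ℕ) : ℝ) * theta U ⟨1 - 1 / (2 * D), hmem⟩ 1
          ≤ D * ((1 : ℕ) : ℝ) * (1 / (2 * D)) := by gcongr
        _ = 1 / 2 := by push_cast; field_simp)
    have hle := pc_le hperc
    have : 0 < 1 / (2 * D) := by positivity
    simp only at hle
    linarith
  · refine ⟨1 / (2 * D), by positivity, fun p hp n hn => ?_⟩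
    have hn0 : (0 : ℝ) < n := by exact_mod_cast hn
    by_contra hcon
    push Not at hcon
    have hlt : D * n * theta U p n < 1 / 2 := by
      calc D * n * theta U p n < D * n * (1 / (2 * D) / n) := by gcongr
        _ = 1 / 2 := by field_simp
    rcases eq_or_lt_of_le (pc_nonneg U) with h0 | hpos
    · have hp0 : p = 0 := Subtype.ext (by rw [hp, ← h0]; rfl)
      rw [hp0, theta_at_zero hne] at hlt
      have : (1 : ℝ) ≤ n := by exact_mod_cast hn
      nlinarith
    · -- a smaller parameter
      have hcont : Continuous fun q : I => D * n * theta U q n :=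
        continuous_const.mul (theta_continuous U n)
      have hopen : IsOpen {q : I | D * n * theta U q n < 1 / 2} :=
        isOpen_lt hcont continuous_const
      obtain ⟨ε, hε, hball⟩ := Metric.isOpen_iff.1 hopen p hlt
      have hp0 : 0 < (p : ℝ) := by rw [hp]; exact hpos
      set q' : ℝ := max (p - ε / 2) (p / 2) with hq'
      have hqlt : q' < p := max_lt (by linarith) (by linarith)
      have hq0 : 0 ≤ q' := le_max_of_le_right (by positivity)
      have hqmem : q' ∈ I := ⟨hq0, hqlt.le.trans p.2.2⟩
      have hqball : (⟨q', hqmem⟩ : I) ∈ Metric.ball p ε := by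
        rw [Metric.mem_ball, Subtype.dist_eq, Real.dist_eq, abs_lt]
        have := le_max_left ((p : ℝ) - ε / 2) (p / 2)
        constructor
        · show -ε < q' - p
          linarith
        · show q' - p < ε
          linarith
      have hq := hball hqball
      have hperc := hcrit ⟨q', hqmem⟩ n hn (le_of_lt hq)
      have hle := pc_le hperc
      simp only at hle
      linarith

/-- families all of whose directions are stable -/
lemma main_stable (hst : ∀ u : ℝ × ℝ, u.1 ^ 2 + u.2 ^ 2 = 1 → Stable U u) : pc U = 1 := by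
  classical
  obtain ⟨F, h0, hF⟩ := exists_blocking hst
  apply le_antisymm (pc_le_one U)
  apply le_csInf ⟨1, one_mem_percSet⟩
  rintro p ⟨hp, hperc⟩
  by_contra hcon
  push Not at hcon
  have hdisj : law ⟨p, hp⟩ {A | ∀ x ∈ F, x ∉ A} = 0 := by
    refine measure_mono_null ?_ ((prob_compl_eq_zero_iff (measurableSet_perc U)).2 hperc)
    intro A hA h
    rw [Set.mem_ofPred_eq] at hA h
    have : (0 : Site) ∈ closure U A := by rw [h]; trivial
    obtain ⟨t, ht⟩ := Set.mem_iUnion.1 this
    exact blocking hF hA t 0 h0 ht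
  have := real_empty_on ⟨p, hp⟩ F
  rw [Measure.real, hdisj, ENNReal.toReal_zero] at this
  have hpos : 0 < (1 - p) ^ F.card := pow_pos (by linarith) _
  simp only at this
  linarith

/-- the event `T > n` -/
lemma lt_occupationTime_iff (A : Set Site) (n : ℕ) :
    (n : ℝ≥0∞) < occupationTime U A ↔ (0 : Site) ∉ stage U A n := by
  constructor
  · intro h h0
    exact absurd h (not_lt.2 (iInf₂_le n h0))
  · intro h
    have hle : ((n + 1 : ℕ) : ℝ≥0∞) ≤ occupationTime U A := by
      refine le_iInf₂ fun t ht => ?_
      have : n < t := by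
        by_contra hcon
        exact h (stage_mono_time A (not_lt.1 hcon) ht)
      exact_mod_cast this
    refine lt_of_lt_of_le ?_ hle
    exact_mod_cast Nat.lt_succ_self n

lemma setOf_lt_occupationTime (n : ℕ) :
    {A | (n : ℝ≥0∞) < occupationTime U A} = late U 0 n := by
  ext A
  exact lt_occupationTime_iff A n

lemma sum_indicator_le (A : Set Site) (N : ℕ) :
    ∑ n ∈ Finset.range N, (late U 0 n).indicator (fun _ => (1 : ℝ≥0∞)) A ≤ occupationTime U A := by
  classical
  refine le_iInf₂ fun t ht => ?_
  have h1 : ∀ n ∈ Finset.range N, (late U 0 n).indicator (fun _ => (1 : ℝ≥0∞)) A ≤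
      if n ∈ Finset.range t then 1 else 0 := by
    intro n _
    by_cases hn : A ∈ late U 0 n
    · rw [Set.indicator_of_mem hn, if_pos]
      rw [Finset.mem_range]
      by_contra hcon
      exact hn (stage_mono_time A (not_lt.1 hcon) ht)
    · rw [Set.indicator_of_notMem hn]; exact zero_le
  refine (Finset.sum_le_sum h1).trans ?_
  rw [Finset.sum_ite_mem, Finset.sum_const, nsmul_eq_mul, mul_one]
  have : (Finset.range N ∩ Finset.range t).card ≤ t := by
    calc _ ≤ (Finset.range t).card := Finset.card_le_card Finset.inter_subset_right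
      _ = t := Finset.card_range t
  exact_mod_cast this

lemma mean_infinite {p : I} {c : ℝ} (hc : 0 < c) (h : ∀ n : ℕ, 1 ≤ n → c / n ≤ theta U p n) :
    ∫⁻ A, occupationTime U A ∂(law p) = ∞ := by
  have h1 : ∀ N : ℕ, ENNReal.ofReal (c * ∑ n ∈ Finset.range N, 1 / ((n : ℝ) + 1)) ≤
      ∫⁻ A, occupationTime U A ∂(law p) := by
    intro N
    calc ENNReal.ofReal (c * ∑ n ∈ Finset.range N, 1 / ((n : ℝ) + 1))
        ≤ ENNReal.ofReal (∑ n ∈ Finset.range N, theta U p n) := by
          apply ENNReal.ofReal_le_ofReal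
          rw [Finset.mul_sum]
          refine Finset.sum_le_sum fun n _ => ?_
          have h2 := h (n + 1) (by omega)
          have h3 := theta_anti U p (Nat.le_succ n)
          push_cast at h2
          calc c * (1 / ((n : ℝ) + 1)) = c / (n + 1) := by ring
            _ ≤ theta U p (n + 1) := h2
            _ ≤ theta U p n := h3
      _ = ∑ n ∈ Finset.range N, law p (late U 0 n) := by
          rw [ENNReal.ofReal_sum_of_nonneg (fun n _ => theta_nonneg _ _ _)]
          refine Finset.sum_congr rfl fun n _ => ?_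
          rw [theta, ofReal_measureReal]
      _ = ∫⁻ A, ∑ n ∈ Finset.range N, (late U 0 n).indicator (fun _ => (1 : ℝ≥0∞)) A ∂(law p) := by
          rw [lintegral_finsetSum]
          · refine Finset.sum_congr rfl fun n _ => ?_
            exact (lintegral_indicator_one (measurableSet_late U 0 n)).symm
          · intro n _
            exact measurable_const.indicator (measurableSet_late U 0 n)
      _ ≤ ∫⁻ A, occupationTime U A ∂(law p) := lintegral_mono fun A => sum_indicator_le A N
  apply ENNReal.eq_top_of_forall_nnreal_le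
  intro r
  have hdiv := (Real.tendsto_sum_range_one_div_nat_succ_atTop).const_mul_atTop hc
  obtain ⟨N, hN⟩ := (hdiv.eventually_ge_atTop (r : ℝ)).exists
  refine le_trans ?_ (h1 N)
  rw [← ENNReal.ofReal_coe_nnreal]
  exact ENNReal.ofReal_le_ofReal hN

lemma mean_zero : ∫⁻ A, occupationTime U A ∂(law 1) = 0 := by
  have h : (fun A => occupationTime U A) =ᵐ[law 1] fun _ => 0 := by
    refine Filter.mem_of_superset (mem_ae_iff.2 law_one_univ) ?_
    intro A hA
    rw [Set.mem_ofPred_eq] at hA
    subst hA
    have h0 : (0 : Site) ∈ stage U Set.univ 0 := trivial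
    have : occupationTime U Set.univ ≤ ((0 : ℕ) : ℝ≥0∞) :=
      iInf₂_le (f := fun (t : ℕ) (_ : t ∈ {t : ℕ | (0 : Site) ∈ stage U Set.univ t}) => (t : ℝ≥0∞))
        0 h0
    simpa using this
  rw [lintegral_congr_ae h, lintegral_zero]

end UBoot
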