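import Mathlib

/-!
# `U`-bootstrap percolation on `ℤ²`: definitions

The objects of the problem `MP_28b826_pr`: update families, the discrete time process, its closure,
stable directions, subcritical families, the product measure, the critical probability and the
occupation time of the origin.
-/

open MeasureTheory ProbabilityTheory Set
open scoped ENNReal unitInterval

namespace UBoot

/-- The sites of the square lattice `ℤ²`. -/
abbrev Site := ℤ × ℤ

/-- One step of the process: `A ∪ {x : x + X ⊆ A for some X ∈ U}`. -/
def step (U : Finset (Finset Site)) (A : Set Site) : Set Site :=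
  A ∪ {x | ∃ X ∈ U, ∀ y ∈ X, x + y ∈ A}

/-- The set `A_t` of the sites occupied at time `t` when `A` is occupied at time `0`. -/
def stage (U : Finset (Finset Site)) (A : Set Site) : ℕ → Set Site
  | 0 => A
  | t + 1 => step U (stage U A t)

/-- The closure `[A] = ⋃_t A_t`. -/
def closure (U : Finset (Finset Site)) (A : Set Site) : Set Site := ⋃ t : ℕ, stage U A t

/-- The discrete open half plane `H_u = {x ∈ ℤ² : ⟨x, u⟩ < 0}`. -/
def halfPlane (u : ℝ × ℝ) : Set Site := {x | (x.1 : ℝ) * u.1 + (x.2 : ℝ) * u.2 < 0}

/-- The direction `u` is stable: `[H_u] = H_u`. -/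
def Stable (U : Finset (Finset Site)) (u : ℝ × ℝ) : Prop := closure U (halfPlane u) = halfPlane u

/-- The family `U` is subcritical: the set of the stable directions of every open semicircle has
positive arc length.  The open semicircles are the sets `{(cos t, sin t) : a < t < a + π}`. -/
def Subcritical (U : Finset (Finset Site)) : Prop :=
  ∀ a : ℝ, 0 < volume {t : ℝ | t ∈ Set.Ioo a (a + Real.pi) ∧ Stable U (Real.cos t, Real.sin t)}

/-- The law `P_p` of the initial set: every site belongs to it independently with probability `p`
(this is `ProbabilityTheory.setBernoulli`, the measure `setBer(univ, p)` of Mathlib). -/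
noncomputable def law (p : I) : Measure (Set Site) := setBernoulli (Set.univ : Set Site) p

/-- The critical probability `p_c(U) = inf {p : P_p([A] = ℤ²) = 1}`. -/
noncomputable def pc (U : Finset (Finset Site)) : ℝ :=
  sInf {p : ℝ | ∃ h : p ∈ I, law ⟨p, h⟩ {A | closure U A = Set.univ} = 1}

/-- The occupation time `T = min {t : 0 ∈ A_t}` of the origin, with `T = ∞` if `0 ∉ [A]`. -/
noncomputable def occupationTime (U : Finset (Finset Site)) (A : Set Site) : ℝ≥0∞ :=
  ⨅ t ∈ {t : ℕ | (0 : Site) ∈ stage U A t}, (t : ℝ≥0∞)

end UBoot
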