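import Pool.Agent.T2H03.UB.Defs

/-!
# Deterministic lemmas on `U`-bootstrap percolation
-/

open Set

namespace UBoot

variable {U : Finset (Finset Site)}

lemma stage_succ_sub (A : Set Site) (t : ℕ) : stage U A t ⊆ stage U A (t + 1) :=
  fun _ h => Or.inl h

lemma stage_mono_time (A : Set Site) {s t : ℕ} (h : s ≤ t) : stage U A s ⊆ stage U A t :=
  monotone_nat_of_le_succ (f := stage U A) (stage_succ_sub A) h

lemma stage_mono {A B : Set Site} (h : A ⊆ B) (t : ℕ) : stage U A t ⊆ stage U B t := by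
  induction t with
  | zero => exact h
  | succ t ih =>
    rintro x (hx | ⟨X, hX, hx⟩)
    · exact Or.inl (ih hx)
    · exact Or.inr ⟨X, hX, fun y hy => ih (hx y hy)⟩

lemma mem_stage_succ {A : Set Site} {t : ℕ} {x : Site} :
    x ∈ stage U A (t + 1) ↔ x ∈ stage U A t ∨ ∃ X ∈ U, ∀ y ∈ X, x + y ∈ stage U A t := Iff.rfl

/-- translating the initial set -/
lemma mem_stage_shift (A : Set Site) (x : Site) (t : ℕ) (y : Site) :
    y ∈ stage U {z | x + z ∈ A} t ↔ x + y ∈ stage U A t := by
  induction t generalizing y with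
  | zero => rfl
  | succ t ih =>
    rw [mem_stage_succ, mem_stage_succ, ih]
    constructor
    · rintro (h | ⟨X, hX, h⟩)
      · exact Or.inl h
      · refine Or.inr ⟨X, hX, fun z hz => ?_⟩
        have := (ih (y + z)).1 (h z hz)
        rwa [← add_assoc] at this
    · rintro (h | ⟨X, hX, h⟩)
      · exact Or.inl h
      · refine Or.inr ⟨X, hX, fun z hz => ?_⟩
        rw [ih, ← add_assoc]
        exact h z hz

/-- a bound for the range of the family -/
def Range (U : Finset (Finset Site)) (R : ℕ) : Prop :=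
  ∀ X ∈ U, ∀ y ∈ X, |y.1| ≤ R ∧ |y.2| ≤ R

lemma exists_range (U : Finset (Finset Site)) : ∃ R : ℕ, 1 ≤ R ∧ Range U R := by
  classical
  refine ⟨1 + ∑ X ∈ U, ∑ y ∈ X, (y.1.natAbs + y.2.natAbs), by omega, ?_⟩
  intro X hX y hy
  have h1 : y.1.natAbs + y.2.natAbs ≤ ∑ y ∈ X, (y.1.natAbs + y.2.natAbs) :=
    Finset.single_le_sum (f := fun y : Site => y.1.natAbs + y.2.natAbs) (fun _ _ => Nat.zero_le _) hy
  have h2 : ∑ y ∈ X, (y.1.natAbs + y.2.natAbs) ≤ ∑ X ∈ U, ∑ y ∈ X, (y.1.natAbs + y.2.natAbs) :=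
    Finset.single_le_sum (f := fun X : Finset Site => ∑ y ∈ X, (y.1.natAbs + y.2.natAbs))
      (fun _ _ => Nat.zero_le _) hX
  constructor <;> push_cast <;> zify at h1 h2 <;> rw [Int.abs_eq_natAbs] <;>
    simp only [Int.natCast_natAbs] at * <;> [skip; skip] <;> nlinarith [abs_nonneg y.1, abs_nonneg y.2]

/-- the box of radius `n` around `x` -/
noncomputable def box (x : Site) (n : ℕ) : Finset Site :=
  Finset.Icc (x.1 - n) (x.1 + n) ×ˢ Finset.Icc (x.2 - n) (x.2 + n)

lemma mem_box {x y : Site} {n : ℕ} : y ∈ box x n ↔ |y.1 - x.1| ≤ n ∧ |y.2 - x.2| ≤ n := by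
  simp only [box, Finset.mem_product, Finset.mem_Icc, abs_le]
  constructor
  · rintro ⟨⟨a, b⟩, c, d⟩; refine ⟨⟨?_, ?_⟩, ?_, ?_⟩ <;> linarith
  · rintro ⟨⟨a, b⟩, c, d⟩; refine ⟨⟨?_, ?_⟩, ?_, ?_⟩ <;> linarith

/-- finite speed -/
lemma stage_local {R : ℕ} (hR : Range U R) (A B : Set Site) (t : ℕ) (x : Site)
    (h : ∀ y ∈ box x (R * t), y ∈ A ↔ y ∈ B) : x ∈ stage U A t ↔ x ∈ stage U B t := by
  induction t generalizing x with
  | zero => exact h x (by simp [mem_box])
  | succ t ih =>
    rw [mem_stage_succ, mem_stage_succ]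
    have h0 : x ∈ stage U A t ↔ x ∈ stage U B t := by
      apply ih
      intro y hy
      apply h
      rw [mem_box] at hy ⊢
      push_cast at hy ⊢
      have : (0:ℤ) ≤ R := by positivity
      constructor <;> nlinarith [hy.1, hy.2]
    have h1 : ∀ X ∈ U, ∀ y ∈ X, (x + y ∈ stage U A t ↔ x + y ∈ stage U B t) := by
      intro X hX y hy
      apply ih
      intro z hz
      apply h
      have hy' := hR X hX y hy
      rw [mem_box] at hz ⊢
      push_cast at hz ⊢
      simp only [Prod.fst_add, Prod.snd_add] at hz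
      obtain ⟨hz1, hz2⟩ := hz
      obtain ⟨hy1, hy2⟩ := hy'
      simp only [abs_le] at *
      constructor <;> constructor <;> nlinarith
    constructor
    · rintro (h | ⟨X, hX, h⟩)
      · exact Or.inl (h0.1 h)
      · exact Or.inr ⟨X, hX, fun y hy => (h1 X hX y hy).1 (h y hy)⟩
    · rintro (h | ⟨X, hX, h⟩)
      · exact Or.inl (h0.2 h)
      · exact Or.inr ⟨X, hX, fun y hy => (h1 X hX y hy).2 (h y hy)⟩

/-- the integral linear functional with coefficients `a`, `b` -/
def fn (a b : ℤ) (x : Site) : ℤ := a * x.1 + b * x.2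

/-- following a path of sites which are occupied late -/
lemma path {X : Finset Site} (hX : X ∈ U) {a b : ℤ} {M R : ℕ}
    (h1 : ∀ x ∈ X, 1 ≤ fn a b x) (hM : ∀ x ∈ X, fn a b x ≤ M)
    (hR : ∀ x ∈ X, |x.1| ≤ R ∧ |x.2| ≤ R) (A : Set Site) (L : ℤ) (n : ℕ) (j : ℕ) (x : Site)
    (hx : x ∉ stage U A (n + j)) (hL : L ≤ fn a b x + j) (hL' : fn a b x ≤ L + M) :
    ∃ y : Site, L ≤ fn a b y ∧ fn a b y ≤ L + M ∧ |y.1 - x.1| ≤ R * j ∧ |y.2 - x.2| ≤ R * j ∧
      y ∉ stage U A n := by
  induction j generalizing x with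
  | zero => exact ⟨x, by simpa using hL, hL', by simp, by simp, by simpa using hx⟩
  | succ j ih =>
    by_cases hc : L ≤ fn a b x
    · refine ⟨x, hc, hL', ?_, ?_, fun h => hx (stage_mono_time A (by omega) h)⟩
      · simp only [sub_self, abs_zero]; positivity
      · simp only [sub_self, abs_zero]; positivity
    · push Not at hc
      have hx' : x ∉ stage U A (n + j + 1) := hx
      rw [mem_stage_succ] at hx'
      push Not at hx'
      obtain ⟨y, hy, hxy⟩ := hx'.2 X hX
      have hadd : fn a b (x + y) = fn a b x + fn a b y := by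
        simp only [fn, Prod.fst_add, Prod.snd_add]; ring
      have hy1 := h1 y hy
      have hyM := hM y hy
      have hyR := hR y hy
      obtain ⟨z, hz1, hz2, hz3, hz4, hz5⟩ := ih (x + y) hxy
        (by rw [hadd]; push_cast at hL; linarith) (by rw [hadd]; linarith)
      refine ⟨z, hz1, hz2, ?_, ?_, hz5⟩
      · simp only [Prod.fst_add] at hz3
        push_cast
        have h1 := hyR.1
        simp only [abs_le] at *
        constructor <;> nlinarith
      · simp only [Prod.snd_add] at hz4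
        push_cast
        have h1 := hyR.2
        simp only [abs_le] at *
        constructor <;> nlinarith

/-- the sites of the strip `L ≤ f ≤ L + M` in the box of radius `B` -/
noncomputable def strip (a b : ℤ) (L M B : ℕ) : Finset Site :=
  (box 0 B).filter fun y => (L : ℤ) ≤ fn a b y ∧ fn a b y ≤ L + M

lemma card_strip (a b : ℤ) (hab : a ≠ 0 ∨ b ≠ 0) (L M B : ℕ) :
    (strip a b L M B).card ≤ (M + 1) * (2 * B + 1) := by
  classical
  have hcard : (Finset.Icc (L : ℤ) (L + M) ×ˢ Finset.Icc (-(B : ℤ)) B).card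
      = (M + 1) * (2 * B + 1) := by
    rw [Finset.card_product, Int.card_Icc, Int.card_Icc]
    congr 1 <;> omega
  rw [← hcard]
  rcases hab with h | h
  · apply Finset.card_le_card_of_injOn (fun y => (fn a b y, y.2))
    · intro y hy
      simp only [strip, Finset.coe_filter, mem_box, Set.mem_ofPred_eq, Prod.fst_zero, Prod.snd_zero,
        sub_zero, abs_le] at hy
      simp only [Finset.coe_product, Set.mem_prod, Finset.coe_Icc, Set.mem_Icc]
      exact ⟨hy.2, hy.1.2⟩
    · intro y _ z _ hyz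
      simp only [Prod.mk.injEq, fn] at hyz
      obtain ⟨e1, e2⟩ := hyz
      rw [e2] at e1
      have : a * y.1 = a * z.1 := by linarith
      exact Prod.ext (mul_left_cancel₀ h this) e2
  · apply Finset.card_le_card_of_injOn (fun y => (fn a b y, y.1))
    · intro y hy
      simp only [strip, Finset.coe_filter, mem_box, Set.mem_ofPred_eq, Prod.fst_zero, Prod.snd_zero,
        sub_zero, abs_le] at hy
      simp only [Finset.coe_product, Set.mem_prod, Finset.coe_Icc, Set.mem_Icc]
      exact ⟨hy.2, hy.1.1⟩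
    · intro y _ z _ hyz
      simp only [Prod.mk.injEq, fn] at hyz
      obtain ⟨e1, e2⟩ := hyz
      rw [e2] at e1
      have : b * y.2 = b * z.2 := by linarith
      exact Prod.ext e2 (mul_left_cancel₀ h this)

end UBoot
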