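import Pool.Agent.T2H03.UB.Prob

/-!
# The finite size criterion
-/

open MeasureTheory ProbabilityTheory Set
open scoped ENNReal unitInterval

namespace UBoot

variable {U : Finset (Finset Site)}

/-- the event that `x` is not occupied at time `n` -/
def late (U : Finset (Finset Site)) (x : Site) (n : ℕ) : Set (Set Site) := {A | x ∉ stage U A n}

lemma dep_late {R : ℕ} (hR : Range U R) (x : Site) (n : ℕ) :
    Dep (late U x n) (box x (R * n)) := by
  intro A B h
  exact not_congr (stage_local hR A B n x h)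

lemma measurableSet_late (U : Finset (Finset Site)) (x : Site) (n : ℕ) :
    MeasurableSet (late U x n) := by
  obtain ⟨R, _, hR⟩ := exists_range U
  exact (dep_late hR x n).measurableSet

/-- the probability that the origin is not occupied at time `n` -/
noncomputable def theta (U : Finset (Finset Site)) (p : I) (n : ℕ) : ℝ :=
  (law p).real (late U 0 n)

lemma theta_shift (U : Finset (Finset Site)) (p : I) (x : Site) (n : ℕ) :
    (law p).real (late U x n) = theta U p n := by
  unfold theta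
  rw [← real_shift p x (measurableSet_late U 0 n)]
  congr 1
  ext A
  simp only [late, Set.mem_ofPred_eq, mem_stage_shift, add_zero]

lemma theta_nonneg (U : Finset (Finset Site)) (p : I) (n : ℕ) : 0 ≤ theta U p n :=
  measureReal_nonneg

lemma theta_continuous (U : Finset (Finset Site)) (n : ℕ) :
    Continuous (fun p : I => theta U p n) := by
  obtain ⟨R, _, hR⟩ := exists_range U
  exact (dep_late hR 0 n).continuous

lemma theta_anti (U : Finset (Finset Site)) (p : I) {m n : ℕ} (h : m ≤ n) :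
    theta U p n ≤ theta U p m := by
  unfold theta
  refine measureReal_mono (fun A hA h' => ?_) (measure_ne_top _ _)
  exact hA (stage_mono_time A h h')

lemma strip_disjoint {a b : ℤ} {R n : ℕ} (hn : 1 ≤ n) {y : Site}
    (hy : ((2 * R * (a.natAbs + b.natAbs) + 1) * n : ℕ) ≤ fn a b y) :
    Disjoint (box 0 (R * n)) (box y (R * n)) := by
  rw [Finset.disjoint_left]
  intro z hz hz'
  rw [mem_box] at hz hz'
  simp only [Prod.fst_zero, Prod.snd_zero, sub_zero] at hz
  have e1 : |y.1| ≤ 2 * (R * n : ℕ) := by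
    obtain ⟨h1, -⟩ := hz; obtain ⟨h2, -⟩ := hz'
    simp only [abs_le] at *
    constructor <;> linarith
  have e2 : |y.2| ≤ 2 * (R * n : ℕ) := by
    obtain ⟨-, h1⟩ := hz; obtain ⟨-, h2⟩ := hz'
    simp only [abs_le] at *
    constructor <;> linarith
  have e3 : fn a b y ≤ |a| * |y.1| + |b| * |y.2| := by
    unfold fn
    have h1 : a * y.1 ≤ |a| * |y.1| := by rw [← abs_mul]; exact le_abs_self _
    have h2 : b * y.2 ≤ |b| * |y.2| := by rw [← abs_mul]; exact le_abs_self _
    linarith
  have e4 : |a| * |y.1| ≤ |a| * (2 * (R * n : ℕ)) := by gcongr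
  have e5 : |b| * |y.2| ≤ |b| * (2 * (R * n : ℕ)) := by gcongr
  push_cast at hy e4 e5
  have hn' : (1 : ℤ) ≤ n := by exact_mod_cast hn
  nlinarith

/-- the main inequality -/
lemma theta_ineq {X : Finset Site} (hX : X ∈ U) {a b : ℤ} (hab : a ≠ 0 ∨ b ≠ 0) {M R : ℕ}
    (h1 : ∀ x ∈ X, 1 ≤ fn a b x) (hM : ∀ x ∈ X, fn a b x ≤ M) (hR : Range U R) (p : I)
    {n k : ℕ} (hn : 1 ≤ n) (hk : k = 2 * R * (a.natAbs + b.natAbs) + 1) :
    theta U p ((k + 1) * n) ≤ ((M + 1) * (2 * R * k + 1) : ℕ) * n * theta U p n ^ 2 := by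
  have hsub : late U 0 ((k + 1) * n) ⊆
      ⋃ y ∈ strip a b (k * n) M (R * (k * n)), (late U 0 n ∩ late U y n) := by
    intro A hA
    have hA' : (0 : Site) ∉ stage U A (n + k * n) := by
      have : (k + 1) * n = n + k * n := by ring
      rw [← this]; exact hA
    obtain ⟨y, hy1, hy2, hy3, hy4, hy5⟩ := path hX h1 hM (hR X hX) A ((k * n : ℕ) : ℤ) n (k * n) 0
      hA' (by simp [fn]) (by
        have : fn a b 0 = 0 := by simp [fn]
        rw [this]; positivity)
    simp only [Set.mem_iUnion, exists_prop]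
    refine ⟨y, ?_, ?_, hy5⟩
    · simp only [strip, Finset.mem_filter, mem_box]
      refine ⟨⟨?_, ?_⟩, hy1, hy2⟩
      · exact_mod_cast hy3
      · exact_mod_cast hy4
    · exact fun h => hA' (stage_mono_time A (by omega) h)
  have hle : theta U p ((k + 1) * n) ≤
      ∑ y ∈ strip a b (k * n) M (R * (k * n)), (law p).real (late U 0 n ∩ late U y n) := by
    refine (measureReal_mono hsub ?_).trans (measureReal_biUnion_finset_le _ _)
    exact measure_ne_top _ _
  have hterm : ∀ y ∈ strip a b (k * n) M (R * (k * n)),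
      (law p).real (late U 0 n ∩ late U y n) = theta U p n ^ 2 := by
    intro y hy
    simp only [strip, Finset.mem_filter] at hy
    rw [(dep_late hR 0 n).indep (dep_late hR y n) (strip_disjoint hn (by rw [← hk]; exact hy.2.1)) p,
      theta_shift, theta_shift, sq]
  rw [Finset.sum_congr rfl hterm, Finset.sum_const, nsmul_eq_mul] at hle
  refine hle.trans (mul_le_mul_of_nonneg_right ?_ (sq_nonneg _))
  have hc := card_strip a b hab (k * n) M (R * (k * n))
  calc ((strip a b (k * n) M (R * (k * n))).card : ℝ) ≤ ((M + 1) * (2 * (R * (k * n)) + 1) : ℕ) := by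
        exact_mod_cast hc
    _ ≤ ((M + 1) * (2 * R * k + 1) : ℕ) * n := by
        have hn' : (1 : ℝ) ≤ n := by exact_mod_cast hn
        push_cast
        have : (0 : ℝ) ≤ (M : ℝ) + 1 := by positivity
        have h2 : (2 : ℝ) * (R * (k * n)) + 1 ≤ (2 * R * k + 1) * n := by
          nlinarith
        calc ((M : ℝ) + 1) * (2 * (R * (k * n)) + 1) ≤ (M + 1) * ((2 * R * k + 1) * n) := by gcongr
          _ = _ := by ring

/-- the events of percolation -/
lemma measurableSet_perc (U : Finset (Finset Site)) :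
    MeasurableSet {A | closure U A = Set.univ} := by
  have : {A | closure U A = Set.univ} = ⋂ x : Site, ⋃ t : ℕ, (late U x t)ᶜ := by
    ext A
    simp only [closure, Set.mem_ofPred_eq, Set.eq_univ_iff_forall, Set.mem_iUnion, Set.mem_iInter,
      Set.mem_compl_iff, late, not_not]
  rw [this]
  exact MeasurableSet.iInter fun x => MeasurableSet.iUnion fun t => (measurableSet_late U x t).compl

lemma perc_of_theta_small {p : I} (h : ∀ ε > 0, ∃ n, theta U p n ≤ ε) :
    law p {A | closure U A = Set.univ} = 1 := by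
  have h0 : ∀ x : Site, law p {A | x ∉ closure U A} = 0 := by
    intro x
    have hz : (law p).real {A | x ∉ closure U A} = 0 := by
      apply le_antisymm _ measureReal_nonneg
      apply le_of_forall_pos_le_add
      intro ε hε
      obtain ⟨n, hn⟩ := h ε hε
      have : (law p).real {A | x ∉ closure U A} ≤ (law p).real (late U x n) := by
        refine measureReal_mono (fun A hA h' => ?_) (measure_ne_top _ _)
        exact hA (Set.mem_iUnion.2 ⟨n, h'⟩)
      rw [theta_shift] at this
      linarith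
    rwa [measureReal_eq_zero_iff] at hz
  have hc : law p {A | closure U A = Set.univ}ᶜ = 0 := by
    have : {A | closure U A = Set.univ}ᶜ = ⋃ x : Site, {A | x ∉ closure U A} := by
      ext A
      simp [Set.eq_univ_iff_forall]
    rw [this]
    exact measure_iUnion_null h0
  rwa [prob_compl_eq_zero_iff (measurableSet_perc U)] at hc

/-- the finite size criterion -/
lemma finite_size {X : Finset Site} (hX : X ∈ U) {a b : ℤ} (hab : a ≠ 0 ∨ b ≠ 0)
    (h1 : ∀ x ∈ X, 1 ≤ fn a b x) :
    ∃ D : ℝ, 1 ≤ D ∧ ∀ (p : I) (n : ℕ), 1 ≤ n → D * n * theta U p n ≤ 1 / 2 →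
      law p {A | closure U A = Set.univ} = 1 := by
  classical
  obtain ⟨R, _, hR⟩ := exists_range U
  obtain ⟨M, hM⟩ : ∃ M : ℕ, ∀ x ∈ X, fn a b x ≤ M := by
    refine ⟨∑ x ∈ X, (fn a b x).natAbs, fun x hx => ?_⟩
    have h := Finset.single_le_sum (f := fun x => (fn a b x).natAbs) (fun _ _ => Nat.zero_le _) hx
    have h' : fn a b x ≤ (fn a b x).natAbs := Int.le_natAbs
    exact h'.trans (by exact_mod_cast h)
  obtain ⟨k, hk⟩ : ∃ k, k = 2 * R * (a.natAbs + b.natAbs) + 1 := ⟨_, rfl⟩
  obtain ⟨C, hC⟩ : ∃ C : ℕ, C = (M + 1) * (2 * R * k + 1) := ⟨_, rfl⟩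
  have hC1 : 1 ≤ C := by rw [hC]; exact Nat.succ_le_of_lt (by positivity)
  refine ⟨((k + 1) * C : ℕ), by exact_mod_cast Nat.succ_le_of_lt (by positivity), ?_⟩
  intro p n hn hle
  have key : ∀ m : ℕ, 1 ≤ m → ((k + 1) * C : ℕ) * (((k + 1) * m : ℕ) : ℝ) * theta U p ((k + 1) * m) ≤
      (((k + 1) * C : ℕ) * (m : ℝ) * theta U p m) ^ 2 := by
    intro m hm
    have := theta_ineq hX hab h1 hM hR p hm hk
    rw [← hC] at this
    calc ((k + 1) * C : ℕ) * (((k + 1) * m : ℕ) : ℝ) * theta U p ((k + 1) * m)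
        ≤ ((k + 1) * C : ℕ) * (((k + 1) * m : ℕ) : ℝ) * (C * m * theta U p m ^ 2) := by
          gcongr
      _ = _ := by push_cast; ring
  have hind : ∀ j : ℕ, ((k + 1) * C : ℕ) * (((k + 1) ^ j * n : ℕ) : ℝ) * theta U p ((k + 1) ^ j * n) ≤
      (1 / 2) ^ (j + 1) := by
    intro j
    induction j with
    | zero => simpa using hle
    | succ j ih =>
      have hpos : 1 ≤ (k + 1) ^ j * n := Nat.succ_le_of_lt (by positivity)
      have h2 := key _ hpos
      have e : (k + 1) * ((k + 1) ^ j * n) = (k + 1) ^ (j + 1) * n := by ring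
      rw [e] at h2
      refine h2.trans ?_
      have h0 : 0 ≤ ((k + 1) * C : ℕ) * (((k + 1) ^ j * n : ℕ) : ℝ) * theta U p ((k + 1) ^ j * n) :=
        mul_nonneg (by positivity) (theta_nonneg _ _ _)
      calc (((k + 1) * C : ℕ) * (((k + 1) ^ j * n : ℕ) : ℝ) * theta U p ((k + 1) ^ j * n)) ^ 2
          ≤ ((1 / 2) ^ (j + 1)) ^ 2 := by gcongr
        _ = (1 / 2) ^ (2 * (j + 1)) := by rw [← pow_mul]; ring_nf
        _ ≤ (1 / 2) ^ (j + 1 + 1) := by
          apply pow_le_pow_of_le_one (by norm_num) (by norm_num); omega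
  apply perc_of_theta_small
  intro ε hε
  obtain ⟨j, hj⟩ := exists_pow_lt_of_lt_one hε (show (1 / 2 : ℝ) < 1 by norm_num)
  refine ⟨(k + 1) ^ j * n, ?_⟩
  have h3 := hind j
  have hge : (1 : ℝ) ≤ ((k + 1) * C : ℕ) * (((k + 1) ^ j * n : ℕ) : ℝ) := by
    have : 1 ≤ (k + 1) * C * ((k + 1) ^ j * n) := Nat.succ_le_of_lt (by positivity)
    exact_mod_cast this
  have h4 : theta U p ((k + 1) ^ j * n) ≤
      ((k + 1) * C : ℕ) * (((k + 1) ^ j * n : ℕ) : ℝ) * theta U p ((k + 1) ^ j * n) :=
    le_mul_of_one_le_left (theta_nonneg _ _ _) hge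
  have h5 : (1 / 2 : ℝ) ^ (j + 1) ≤ (1 / 2) ^ j := by
    apply pow_le_pow_of_le_one (by norm_num) (by norm_num); omega
  linarith

end UBoot
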