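import Pool.Agent.T2H03.UB.Det

/-!
# The product measure on `ℤ²`
-/

open MeasureTheory ProbabilityTheory Set
open scoped ENNReal unitInterval

namespace UBoot

/-- the Bernoulli measure on `Prop` -/
noncomputable def ber (p : I) : Measure Prop :=
  unitInterval.toNNReal p • Measure.dirac True + unitInterval.toNNReal (σ p) • Measure.dirac False

instance (p : I) : IsProbabilityMeasure (ber p) := by unfold ber; infer_instance

instance (p : I) : IsProbabilityMeasure (law p) := by unfold law; infer_instance

lemma law_eq (p : I) : law p =
    Measure.map (fun q : Site → Prop => {i | q i}) (Measure.infinitePi fun _ => ber p) := by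
  unfold law
  rw [setBernoulli_eq_map]
  simp only [Set.mem_univ]
  rfl

lemma measurable_ofPred : Measurable (fun q : Site → Prop => {i | q i}) :=
  (MeasurableEquiv.setOfPred (α := Site)).measurable

lemma measurable_mem (x : Site) : Measurable (fun A : Set Site => x ∈ A) :=
  (measurable_pi_apply x).comp (MeasurableEquiv.setOfPred (α := Site)).symm.measurable

lemma ber_singleton (p : I) (q : Prop) [Decidable q] :
    (ber p).real {q} = if q then (p : ℝ) else 1 - (p : ℝ) := by
  unfold ber
  split_ifs with h
  · simp [h, Measure.real]
  · simp [h, Measure.real]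

/-- the restriction of a configuration to a finite set of sites -/
def res (F : Finset Site) (A : Set Site) (i : F) : Prop := (i : Site) ∈ A

lemma measurable_res (F : Finset Site) : Measurable (res F) :=
  measurable_pi_lambda _ fun i => measurable_mem i

lemma iIndepFun_law (p : I) : iIndepFun (fun (x : Site) (A : Set Site) => x ∈ A) (law p) := by
  have h := iIndepFun_infinitePi (P := fun _ : Site => ber p) (X := fun _ (q : Prop) => q)
    (fun _ => measurable_id)
  rw [law_eq]
  rw [iIndepFun_iff_measure_inter_preimage_eq_mul] at h ⊢
  intro S sets hs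
  have h' := h S hs
  have e1 : ∀ x : Site, ∀ s : Set Prop,
      (Measure.map (fun q : Site → Prop => {i | q i}) (Measure.infinitePi fun _ => ber p))
        ((fun A : Set Site => x ∈ A) ⁻¹' s) =
      (Measure.infinitePi fun _ : Site => ber p) ((fun ω : Site → Prop => ω x) ⁻¹' s) := by
    intro x s
    rw [Measure.map_apply measurable_ofPred (measurable_mem x (by trivial))]
    rfl
  simp only [e1]
  rw [← h', Measure.map_apply measurable_ofPred]
  · rfl
  · exact MeasurableSet.biInter (Finset.countable_toSet S)
      (fun i _ => measurable_mem i (by trivial))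

lemma indepFun_res (p : I) {F G : Finset Site} (h : Disjoint F G) :
    IndepFun (res F) (res G) (law p) :=
  (iIndepFun_law p).indepFun_finset F G h measurable_mem

/-- the event `E` depends only on the sites of `F` -/
def Dep (E : Set (Set Site)) (F : Finset Site) : Prop :=
  ∀ A B : Set Site, (∀ x ∈ F, x ∈ A ↔ x ∈ B) → (A ∈ E ↔ B ∈ E)

lemma Dep.eq_preimage {E : Set (Set Site)} {F : Finset Site} (h : Dep E F) :
    E = res F ⁻¹' (res F '' E) := by
  apply Set.Subset.antisymm (Set.subset_preimage_image _ _)
  rintro A ⟨B, hB, hAB⟩
  refine (h B A fun x hx => ?_).1 hB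
  have := congrFun hAB ⟨x, hx⟩
  simpa [res] using this

lemma Dep.measurableSet {E : Set (Set Site)} {F : Finset Site} (h : Dep E F) :
    MeasurableSet E := by
  rw [h.eq_preimage]
  exact measurable_res F (Set.toFinite _).measurableSet

lemma Dep.indep {E E' : Set (Set Site)} {F G : Finset Site} (h : Dep E F) (h' : Dep E' G)
    (hFG : Disjoint F G) (p : I) :
    (law p).real (E ∩ E') = (law p).real E * (law p).real E' := by
  have := (indepFun_res p hFG).measure_inter_preimage_eq_mul (res F '' E) (res G '' E')
    (Set.toFinite _).measurableSet (Set.toFinite _).measurableSet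
  rw [← h.eq_preimage, ← h'.eq_preimage] at this
  simp only [Measure.real, this, ENNReal.toReal_mul]

lemma real_res_singleton (p : I) (F : Finset Site) (g : F → Prop) [∀ i, Decidable (g i)] :
    (law p).real (res F ⁻¹' {g}) = ∏ i : F, if g i then (p : ℝ) else 1 - (p : ℝ) := by
  classical
  have h1 : (law p) (res F ⁻¹' {g}) = ∏ i ∈ F, ber p {x | ∀ h : i ∈ F, x = g ⟨i, h⟩} := by
    rw [law_eq, Measure.map_apply measurable_ofPred
      (measurable_res F (Set.toFinite _).measurableSet)]
    rw [← Measure.infinitePi_pi (μ := fun _ : Site => ber p) (s := F)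
      (t := fun i => {x | ∀ h : i ∈ F, x = g ⟨i, h⟩}) (fun i _ => (Set.toFinite _).measurableSet)]
    congr 1
    ext q
    simp only [Set.mem_preimage, Set.mem_singleton_iff, Set.mem_pi, SetLike.mem_coe,
      Set.mem_ofPred_eq]
    constructor
    · intro h i hi _
      exact congrFun h ⟨i, hi⟩
    · intro h
      ext ⟨i, hi⟩
      have := h i hi hi
      simp only [res, Set.mem_ofPred_eq]
      rw [this]
  rw [Measure.real, h1, ENNReal.toReal_prod, ← Finset.prod_coe_sort]
  apply Finset.prod_congr rfl
  intro i _
  have h2 : {x : Prop | ∀ h : (i : Site) ∈ F, x = g ⟨i, h⟩} = {g i} := by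
    ext x
    simp
  rw [h2]
  exact ber_singleton p (g i)

lemma Dep.real_eq {E : Set (Set Site)} {F : Finset Site} (h : Dep E F) (p : I) :
    (law p).real E = ∑ g ∈ (Set.toFinite (res F '' E)).toFinset,
      ∏ i : F, (open Classical in if g i then (p : ℝ) else 1 - (p : ℝ)) := by
  classical
  have h1 : E = ⋃ g ∈ (Set.toFinite (res F '' E)).toFinset, res F ⁻¹' {g} := by
    conv_lhs => rw [h.eq_preimage]
    ext A
    simp [eq_comm]
  conv_lhs => rw [h1]
  rw [measureReal_biUnion_finset]
  · apply Finset.sum_congr rfl
    intro g _
    rw [real_res_singleton]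
  · intro g _ g' _ hgg'
    exact Disjoint.preimage _ (by simpa using hgg')
  · intro g _
    exact measurable_res F (Set.toFinite _).measurableSet

lemma Dep.continuous {E : Set (Set Site)} {F : Finset Site} (h : Dep E F) :
    Continuous (fun p : I => (law p).real E) := by
  have : (fun p : I => (law p).real E) = fun p : I =>
      ∑ g ∈ (Set.toFinite (res F '' E)).toFinset,
        ∏ i : F, (open Classical in if g i then (p : ℝ) else 1 - (p : ℝ)) :=
    funext fun p => h.real_eq p
  rw [this]
  refine continuous_finsetSum _ fun g _ => continuous_finsetProd _ fun i _ => ?_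
  split_ifs
  · exact continuous_subtype_val
  · exact continuous_const.sub continuous_subtype_val

lemma measurable_shift (x : Site) : Measurable (fun A : Set Site => {z | x + z ∈ A}) := by
  have h : Measurable (fun A : Set Site => fun z : Site => x + z ∈ A) :=
    measurable_pi_lambda _ fun z => measurable_mem (x + z)
  exact measurable_ofPred.comp h

/-- translation invariance -/
lemma map_shift (p : I) (x : Site) : (law p).map (fun A => {z | x + z ∈ A}) = law p := by
  conv_lhs => rw [law_eq]
  rw [law_eq, Measure.map_map (measurable_shift x) measurable_ofPred]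
  have h := Measure.map_infinitePi_infinitePi_of_inj (P := fun _ : Site => ber p)
    (f := fun z : Site => x + z) (add_right_injective x)
  conv_rhs => rw [← h, Measure.map_map measurable_ofPred
    (measurable_pi_lambda _ fun z => measurable_pi_apply (x + z))]
  rfl

lemma real_shift (p : I) (x : Site) {E : Set (Set Site)} (hE : MeasurableSet E) :
    (law p).real {A | {z | x + z ∈ A} ∈ E} = (law p).real E := by
  conv_rhs => rw [← map_shift p x, Measure.real, Measure.map_apply (measurable_shift x) hE]
  rfl

end UBoot
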