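import Pool.Agent.T2H03.UB.Fss

/-!
# Stable directions, rules in open half planes, and finite blocking sets
-/

open MeasureTheory ProbabilityTheory Set
open scoped ENNReal unitInterval

namespace UBoot

variable {U : Finset (Finset Site)}

/-- the real inner product -/
def ip (x : Site) (u : ℝ × ℝ) : ℝ := (x.1 : ℝ) * u.1 + (x.2 : ℝ) * u.2

lemma ip_add (x y : Site) (u : ℝ × ℝ) : ip (x + y) u = ip x u + ip y u := by
  simp only [ip, Prod.fst_add, Prod.snd_add]; push_cast; ring

lemma mem_halfPlane {x : Site} {u : ℝ × ℝ} : x ∈ halfPlane u ↔ ip x u < 0 := Iff.rfl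

lemma stage_eq_of_step {A : Set Site} (h : step U A = A) (t : ℕ) : stage U A t = A := by
  induction t with
  | zero => rfl
  | succ t ih => rw [stage, ih, h]

lemma stable_iff_step (u : ℝ × ℝ) : Stable U u ↔ step U (halfPlane u) = halfPlane u := by
  constructor
  · intro h
    apply Set.Subset.antisymm _ subset_union_left
    intro x hx
    have : x ∈ closure U (halfPlane u) := Set.mem_iUnion.2 ⟨1, hx⟩
    rwa [h] at this
  · intro h
    unfold Stable closure
    simp only [stage_eq_of_step h, Set.iUnion_const]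

/-- an unstable direction gives a rule in an open half plane -/
lemma exists_rule_of_not_stable {u : ℝ × ℝ} (h : ¬ Stable U u) :
    ∃ X ∈ U, ∀ y ∈ X, ip y u < 0 := by
  rw [stable_iff_step] at h
  by_contra hcon
  push Not at hcon
  apply h
  apply Set.Subset.antisymm _ subset_union_left
  rintro x (hx | ⟨X, hX, hx⟩)
  · exact hx
  · obtain ⟨y, hy, hyu⟩ := hcon X hX
    have := hx y hy
    rw [mem_halfPlane, ip_add] at this
    rw [mem_halfPlane]
    linarith

/-- a rule in an open half plane gives an unstable direction -/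
lemma not_stable_of_rule {u : ℝ × ℝ} {X : Finset Site} (hX : X ∈ U) (h : ∀ y ∈ X, ip y u < 0) :
    ¬ Stable U u := by
  rw [stable_iff_step]
  intro hs
  have h0 : (0 : Site) ∈ step U (halfPlane u) := by
    refine Or.inr ⟨X, hX, fun y hy => ?_⟩
    rw [zero_add]
    exact h y hy
  rw [hs, mem_halfPlane] at h0
  simp [ip] at h0

/-- a family with the empty rule has no stable direction -/
lemma nonempty_of_subcritical (h : Subcritical U) : ∀ X ∈ U, X.Nonempty := by
  intro X hX
  by_contra hne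
  rw [Finset.not_nonempty_iff_eq_empty] at hne
  have := h 0
  have he : {t : ℝ | t ∈ Set.Ioo (0 : ℝ) (0 + Real.pi) ∧ Stable U (Real.cos t, Real.sin t)} = ∅ := by
    ext t
    simp only [Set.mem_ofPred_eq, Set.mem_empty_iff_false, iff_false, not_and]
    intro _
    exact not_stable_of_rule hX (by simp [hne])
  rw [he] at this
  simp at this

/-- from a real to an integral functional -/
lemma exists_integral {X : Finset Site} (hne : X.Nonempty) {u : ℝ × ℝ} (h : ∀ y ∈ X, ip y u < 0) :
    ∃ a b : ℤ, (a ≠ 0 ∨ b ≠ 0) ∧ ∀ y ∈ X, 1 ≤ fn a b y := by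
  obtain ⟨y0, hy0, hmax⟩ := X.exists_max_image (fun y => ip y u) hne
  obtain ⟨R, -, hR⟩ := exists_range {X}
  have hR' := hR X (by simp)
  have hδ : 0 < -ip y0 u := by linarith [h y0 hy0]
  obtain ⟨N, hN⟩ := exists_nat_gt ((2 * R + 1) / (-ip y0 u))
  rw [div_lt_iff₀ hδ] at hN
  have key : ∀ y ∈ X, 1 ≤ fn ⌊-(N * u.1)⌋ ⌊-(N * u.2)⌋ y := by
    intro y hy
    have h1 := Int.floor_le (-(N * u.1))
    have h2 := Int.lt_floor_add_one (-(N * u.1))
    have h3 := Int.floor_le (-(N * u.2))
    have h4 := Int.lt_floor_add_one (-(N * u.2))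
    set a := ⌊-(N * u.1)⌋
    set b := ⌊-(N * u.2)⌋
    have hyR := hR' y hy
    have hy1 : |(y.1 : ℝ)| ≤ R := by exact_mod_cast hyR.1
    have hy2 : |(y.2 : ℝ)| ≤ R := by exact_mod_cast hyR.2
    have e1 : |((-(N * u.1)) - a) * y.1| ≤ 1 * R := by
      rw [abs_mul]
      apply mul_le_mul _ hy1 (abs_nonneg _) (by norm_num)
      rw [abs_le]; constructor <;> linarith
    have e2 : |((-(N * u.2)) - b) * y.2| ≤ 1 * R := by
      rw [abs_mul]
      apply mul_le_mul _ hy2 (abs_nonneg _) (by norm_num)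
      rw [abs_le]; constructor <;> linarith
    have e3 := (abs_le.1 e1).2
    have e4 := (abs_le.1 e2).2
    have e5 : (N : ℝ) * (-ip y0 u) ≤ N * (-ip y u) := by
      apply mul_le_mul_of_nonneg_left _ (Nat.cast_nonneg N)
      have := hmax y hy
      linarith
    have e6 : (N : ℝ) * (-ip y u) = (-(N * u.1)) * y.1 + (-(N * u.2)) * y.2 := by
      unfold ip; ring
    have e7 : (1 : ℝ) ≤ (fn a b y : ℤ) := by
      unfold fn
      push_cast
      nlinarith
    exact_mod_cast e7
  refine ⟨_, _, ?_, key⟩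
  have := key y0 hy0
  by_contra hcon
  push Not at hcon
  rw [hcon.1, hcon.2] at this
  simp [fn] at this

/-- if all directions are stable, then the origin is in the convex hull of every rule -/
lemma exists_weights (hst : ∀ u : ℝ × ℝ, u.1 ^ 2 + u.2 ^ 2 = 1 → Stable U u) {X : Finset Site}
    (hX : X ∈ U) :
    ∃ c : Site → ℝ, (∀ x ∈ X, 0 ≤ c x) ∧ ∑ x ∈ X, c x = 1 ∧ ∑ x ∈ X, c x * (x.1 : ℝ) = 0 ∧
      ∑ x ∈ X, c x * (x.2 : ℝ) = 0 := by
  classical
  let e : Site → ℝ × ℝ := fun x => ((x.1 : ℝ), (x.2 : ℝ))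
  have he : Function.Injective e := by
    intro x y hxy
    simp only [e, Prod.mk.injEq, Int.cast_inj] at hxy
    exact Prod.ext hxy.1 hxy.2
  by_cases hmem : (0 : ℝ × ℝ) ∈ convexHull ℝ ((X.image e : Finset (ℝ × ℝ)) : Set (ℝ × ℝ))
  · rw [Finset.mem_convexHull'] at hmem
    obtain ⟨w, hw0, hw1, hw2⟩ := hmem
    refine ⟨fun x => w (e x), fun x hx => hw0 _ (Finset.mem_image_of_mem e hx), ?_, ?_, ?_⟩
    · rw [Finset.sum_image (fun x _ y _ h => he h)] at hw1
      exact hw1
    · rw [Finset.sum_image (fun x _ y _ h => he h)] at hw2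
      have := congrArg Prod.fst hw2
      simpa [Prod.fst_sum, e] using this
    · rw [Finset.sum_image (fun x _ y _ h => he h)] at hw2
      have := congrArg Prod.snd hw2
      simpa [Prod.snd_sum, e] using this
  · exfalso
    have hcl : IsClosed (convexHull ℝ ((X.image e : Finset (ℝ × ℝ)) : Set (ℝ × ℝ))) :=
      ((Finset.finite_toSet _).isCompact_convexHull ℝ).isClosed
    obtain ⟨f, s, hs0, hs⟩ := geometric_hahn_banach_point_closed (convex_convexHull ℝ _) hcl hmem
    rw [map_zero] at hs0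
    have hf : ∀ x ∈ X, 0 < (x.1 : ℝ) * f (1, 0) + (x.2 : ℝ) * f (0, 1) := by
      intro x hx
      have h1 := hs (e x) (subset_convexHull ℝ _ (by simpa using ⟨x.1, x.2, hx, rfl⟩))
      have h2 : e x = (x.1 : ℝ) • ((1, 0) : ℝ × ℝ) + (x.2 : ℝ) • ((0, 1) : ℝ × ℝ) := by
        simp [e]
      rw [h2, map_add, map_smul, map_smul, smul_eq_mul, smul_eq_mul] at h1
      linarith
    rcases X.eq_empty_or_nonempty with hemp | ⟨x0, hx0⟩
    · exact not_stable_of_rule (u := (1, 0)) hX (by simp [hemp]) (hst (1, 0) (by norm_num))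
    · set α := f (1, 0)
      set β := f (0, 1)
      have hr : 0 < α ^ 2 + β ^ 2 := by
        by_contra hcon
        have h1 : α = 0 := by nlinarith [sq_nonneg α, sq_nonneg β]
        have h2 : β = 0 := by nlinarith [sq_nonneg α, sq_nonneg β]
        have := hf x0 hx0
        rw [h1, h2] at this
        simp at this
      set r := Real.sqrt (α ^ 2 + β ^ 2)
      have hr0 : 0 < r := Real.sqrt_pos.2 hr
      have hr2 : r ^ 2 = α ^ 2 + β ^ 2 := Real.sq_sqrt hr.le
      refine not_stable_of_rule (u := (-α / r, -β / r)) hX (fun y hy => ?_)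
        (hst (-α / r, -β / r) ?_)
      · have := hf y hy
        have e1 : ip y (-α / r, -β / r) = -(((y.1 : ℝ) * α + (y.2 : ℝ) * β) / r) := by
          unfold ip; field_simp; ring
        rw [e1]
        have : 0 < ((y.1 : ℝ) * α + (y.2 : ℝ) * β) / r := by positivity
        linarith
      · simp only []
        field_simp
        linarith

/-- a finite set which is never entered -/
lemma exists_blocking (hst : ∀ u : ℝ × ℝ, u.1 ^ 2 + u.2 ^ 2 = 1 → Stable U u) :
    ∃ F : Finset Site, (0 : Site) ∈ F ∧ ∀ y ∈ F, ∀ X ∈ U, ∃ x ∈ X, y + x ∈ F := by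
  classical
  obtain ⟨R, -, hR⟩ := exists_range U
  let W : Finset Site := U.biUnion id
  let S : Set Site := {y | ∃ a : Site → ℝ, (∀ w, 0 ≤ a w ∧ a w ≤ 2) ∧
    (y.1 : ℝ) = ∑ w ∈ W, a w * (w.1 : ℝ) ∧ (y.2 : ℝ) = ∑ w ∈ W, a w * (w.2 : ℝ)}
  have hWR : ∀ w ∈ W, |w.1| ≤ R ∧ |w.2| ≤ R := by
    intro w hw
    obtain ⟨X, hX, hwX⟩ := Finset.mem_biUnion.1 hw
    exact hR X hX w hwX
  have hfin : S.Finite := by
    apply (Finset.finite_toSet (box 0 (2 * R * W.card))).subset
    rintro y ⟨a, ha, hy1, hy2⟩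
    simp only [SetLike.mem_coe, mem_box, Prod.fst_zero, Prod.snd_zero, sub_zero]
    have hb : ∀ g : Site → ℤ, (∀ w ∈ W, |g w| ≤ R) →
        |∑ w ∈ W, a w * (g w : ℝ)| ≤ (2 * R * W.card : ℕ) := by
      intro g hg
      refine (Finset.abs_sum_le_sum_abs _ _).trans ?_
      have : ∀ w ∈ W, |a w * (g w : ℝ)| ≤ 2 * R := by
        intro w hw
        rw [abs_mul, abs_of_nonneg (ha w).1]
        have hgw : |(g w : ℝ)| ≤ R := by exact_mod_cast hg w hw
        exact mul_le_mul (ha w).2 hgw (abs_nonneg _) (by norm_num)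
      refine (Finset.sum_le_sum this).trans ?_
      rw [Finset.sum_const, nsmul_eq_mul]
      push_cast
      apply le_of_eq; ring
    constructor
    · have := hb (fun w => w.1) (fun w hw => (hWR w hw).1)
      rw [← hy1] at this
      exact_mod_cast this
    · have := hb (fun w => w.2) (fun w hw => (hWR w hw).2)
      rw [← hy2] at this
      exact_mod_cast this
  refine ⟨hfin.toFinset, ?_, ?_⟩
  · rw [Set.Finite.mem_toFinset]
    exact ⟨fun _ => 0, fun _ => ⟨le_rfl, by norm_num⟩, by simp, by simp⟩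
  · intro y hy X hX
    rw [Set.Finite.mem_toFinset] at hy
    obtain ⟨a, ha, hy1, hy2⟩ := hy
    obtain ⟨c, hc0, hc1, hcx, hcy⟩ := exists_weights hst hX
    have hXW : ∀ x ∈ X, x ∈ W := fun x hx => Finset.mem_biUnion.2 ⟨X, hX, hx⟩
    -- it is enough to find a representation with a coefficient `≤ 1`
    have fin : ∀ a' : Site → ℝ, (∀ w, 0 ≤ a' w ∧ a' w ≤ 2) →
        ((y.1 : ℝ) = ∑ w ∈ W, a' w * (w.1 : ℝ)) → ((y.2 : ℝ) = ∑ w ∈ W, a' w * (w.2 : ℝ)) →
        (∃ x ∈ X, a' x ≤ 1) → ∃ x ∈ X, y + x ∈ hfin.toFinset := by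
      rintro a' ha' h1 h2 ⟨x, hx, hax⟩
      refine ⟨x, hx, ?_⟩
      rw [Set.Finite.mem_toFinset]
      refine ⟨fun w => a' w + if w = x then 1 else 0, fun w => ?_, ?_, ?_⟩
      · show 0 ≤ a' w + (if w = x then 1 else 0) ∧ a' w + (if w = x then 1 else 0) ≤ 2
        split_ifs with h
        · subst h; constructor <;> linarith [(ha' w).1]
        · simpa using ha' w
      · simp only [add_mul, Finset.sum_add_distrib, ite_mul, one_mul, zero_mul,
          Finset.sum_ite_eq', hXW x hx, if_true]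
        rw [← h1]; simp
      · simp only [add_mul, Finset.sum_add_distrib, ite_mul, one_mul, zero_mul,
          Finset.sum_ite_eq', hXW x hx, if_true]
        rw [← h2]; simp
    by_cases hsmall : ∃ x ∈ X, a x ≤ 1
    · exact fin a ha hy1 hy2 hsmall
    · push Not at hsmall
      -- the elements of positive weight
      have hne : (X.filter fun x => 0 < c x).Nonempty := by
        by_contra hcon
        rw [Finset.not_nonempty_iff_eq_empty, Finset.filter_eq_empty_iff] at hcon
        have : ∑ x ∈ X, c x = 0 := by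
          apply Finset.sum_eq_zero
          intro x hx
          exact le_antisymm (not_lt.1 (hcon hx)) (hc0 x hx)
        rw [hc1] at this
        norm_num at this
      obtain ⟨x0, hx0, hmin⟩ := Finset.exists_min_image _ (fun x => (a x - 1) / c x) hne
      rw [Finset.mem_filter] at hx0
      obtain ⟨hx0X, hcx0⟩ := hx0
      set s := (a x0 - 1) / c x0 with hs
      have hs0 : 0 < s := div_pos (by linarith [hsmall x0 hx0X]) hcx0
      let a' : Site → ℝ := fun w => a w - if w ∈ X then s * c w else 0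
      have ha'1 : ∀ w ∈ X, 1 ≤ a' w := by
        intro w hw
        simp only [a', hw, if_true]
        rcases (hc0 w hw).lt_or_eq with hpos | hzero
        · have := hmin w (Finset.mem_filter.2 ⟨hw, hpos⟩)
          rw [le_div_iff₀ hpos] at this
          linarith
        · rw [← hzero]; linarith [hsmall w hw]
      have hsplit : ∀ g : Site → ℝ, ∑ x ∈ X, c x * g x = 0 →
          ∑ w ∈ W, a' w * g w = ∑ w ∈ W, a w * g w := by
        intro g hg
        have h1 : ∀ w ∈ W, a' w * g w = a w * g w - if w ∈ X then s * (c w * g w) else 0 := by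
          intro w _
          simp only [a']
          split_ifs <;> ring
        rw [Finset.sum_congr rfl h1, Finset.sum_sub_distrib, Finset.sum_ite_mem]
        have h2 : W ∩ X = X := Finset.inter_eq_right.2 hXW
        rw [h2, ← Finset.mul_sum, hg, mul_zero, sub_zero]
      refine fin a' (fun w => ?_) ?_ ?_ ⟨x0, hx0X, ?_⟩
      · by_cases hw : w ∈ X
        · refine ⟨by linarith [ha'1 w hw], ?_⟩
          simp only [a', hw, if_true]
          have : 0 ≤ s * c w := mul_nonneg hs0.le (hc0 w hw)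
          linarith [(ha w).2]
        · simpa [a', hw] using ha w
      · rw [hsplit (fun w => (w.1 : ℝ)) hcx]; exact hy1
      · rw [hsplit (fun w => (w.2 : ℝ)) hcy]; exact hy2
      · simp only [a', hx0X, if_true, hs]
        field_simp
        linarith

/-- the blocking set stays empty -/
lemma blocking {F : Finset Site} (h : ∀ y ∈ F, ∀ X ∈ U, ∃ x ∈ X, y + x ∈ F) {A : Set Site}
    (hA : ∀ x ∈ F, x ∉ A) (t : ℕ) : ∀ x ∈ F, x ∉ stage U A t := by
  induction t with
  | zero => exact hA
  | succ t ih =>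
    rintro x hx (hx' | ⟨X, hX, hx'⟩)
    · exact ih x hx hx'
    · obtain ⟨y, hy, hxy⟩ := h x hx X hX
      exact ih _ hxy (hx' y hy)

end UBoot
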